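import Pool.Agent.Helper185.BlkFinal
import Pool.Agent.Helper292.ForceCH

/-!
`Split(Ω, T)` does not imply `Split(T, Γ)`: under the continuum hypothesis, which can be forced,
there is a set of reals with the first property and without the second one.
-/

namespace Pool.Agent.Results.MP_7b70e8_gt.ConsistentlyFails

open Pool.Agent.Helper185.Sel

/-- (1) The continuum hypothesis can be forced, with `ω₁` preserved. (2) Under the continuum
hypothesis there is a nonempty set of reals which satisfies `Split(Ω, T)`, and which does not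
satisfy `Split(T, Γ)`, nor `Split(Ω, Γ)`. -/
theorem result :
    (∃ (P : Type) (_ : Preorder P), Nonempty P ∧ ∀ p : P,
      p ∈ Pool.Agent.Helper292.ForceCH.OmegaOnePreserved P ∧
      p ∈ Pool.Agent.Helper292.ForceCH.CHHolds P) ∧
    (Cardinal.aleph 1 = Cardinal.continuum.{0} →
      ∃ X : Set ℝ, X.Nonempty ∧ SplitP (OmegaOf (OpenFam X)) (TauOf (OpenFam X)) ∧
        ¬ SplitP (TauOf (OpenFam X)) (GammaOf (OpenFam X)) ∧
        ¬ SplitP (OmegaOf (OpenFam X)) (GammaOf (OpenFam X))) := by
  refine ⟨?_, ?_⟩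
  · obtain ⟨P, i, h1, h2⟩ := Pool.Agent.Helper292.ForceCH.exists_forcing
    exact ⟨P, i, h1, fun p => ⟨(h2 p).1, (h2 p).2.2⟩⟩
  · intro hCH
    obtain ⟨X, h0, h1, h2⟩ := Pool.Agent.Helper185.Blk.exists_real hCH
    have : Nonempty X := h0.to_subtype
    refine ⟨X, h0, h1, fun h => h2 (Pool.Agent.Helper185.Blk.split_choose h), fun h => ?_⟩
    exact h2 (fun U hU => Pool.Agent.Helper185.Blk.split_choose h U (tau_sub_omega hU))

end Pool.Agent.Results.MP_7b70e8_gt.ConsistentlyFails
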